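import Pool.Agent.Lib.MP_df705a_gt.Coll.Defs
import Pool.Agent.Lib.MP_df705a_gt.Mg.G016

/-!
# Biconformal deformations by constants
-/

open scoped Manifold ContDiff Topology
open Set Bundle Module Filter MeasureTheory

noncomputable section

namespace Pool.Agent.Lib.MP_df705a_gt.Coll

open Pool.Agent.Lib.MP_df705a_gt.Twist Pool.Agent.Lib.MP_df705a_gt.Perm
open Pool.Agent.Lib.MP_df705a_gt.Circ (Horizontal Submersion cf Para HorConf)
open Pool.Agent.Lib.MP_df705a_gt.Fib (RiemSub Biconformal)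

namespace BiconfAux

section coords

variable {E : Type*} [NormedAddCommGroup E] [NormedSpace ℝ E] [FiniteDimensional ℝ E]

theorem pd_smul (c : ℝ) (hc : c ≠ 0) (i : Fin (finrank ℝ E)) (F : E → ℝ) (x : E) :
    Curv.pd i (fun y => c * F y) x = c * Curv.pd i F x := by
  have : Invertible c := invertibleOfNonzero hc
  have h := fderiv_const_smul_of_invertible (𝕜 := ℝ) (f := F) (x := x) c
  unfold Curv.pd
  have e : (fun y => c * F y) = c • F := rfl
  rw [e, h]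
  rfl

theorem christoffel_smul (c : ℝ) (hc : c ≠ 0) (h : Curv.Coeff E) (i j k : Fin (finrank ℝ E))
    (x : E) : Curv.christoffel (fun y => c • h y) i j k x = c * Curv.christoffel h i j k x := by
  unfold Curv.christoffel
  have e : ∀ a b d : Fin (finrank ℝ E), Curv.pd a (fun y => (c • h y) b d) x =
      c * Curv.pd a (fun y => h y b d) x := fun a b d => pd_smul c hc a _ x
  rw [e, e, e]
  ring

theorem inv_smul_mat {n : ℕ} (c : ℝ) (hc : c ≠ 0) (A : Matrix (Fin n) (Fin n) ℝ) :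
    (c • A)⁻¹ = c⁻¹ • A⁻¹ := by
  by_cases hA : IsUnit A.det
  · have : Invertible c := invertibleOfNonzero hc
    rw [Matrix.inv_smul A c hA, invOf_eq_inv]
  · have hA' : ¬ IsUnit (c • A).det := by
      rw [Matrix.det_smul, isUnit_iff_ne_zero, not_not]
      rw [isUnit_iff_ne_zero, not_not] at hA
      rw [hA, mul_zero]
    rw [Matrix.nonsing_inv_apply_not_isUnit _ hA, Matrix.nonsing_inv_apply_not_isUnit _ hA',
      smul_zero]

theorem riemann_smul (c : ℝ) (hc : c ≠ 0) (h : Curv.Coeff E) (i j k l : Fin (finrank ℝ E))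
    (x : E) : Curv.riemann (fun y => c • h y) i j k l x = c * Curv.riemann h i j k l x := by
  unfold Curv.riemann
  have e : ∀ a b d : Fin (finrank ℝ E), Curv.christoffel (fun y => c • h y) a b d =
      fun x => c * Curv.christoffel h a b d x := by
    intro a b d
    funext y
    exact christoffel_smul c hc h a b d y
  simp only [e]
  rw [pd_smul c hc, pd_smul c hc, inv_smul_mat c hc, mul_add, mul_sub, Finset.mul_sum]
  congr 1
  refine Finset.sum_congr rfl fun p _ => ?_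
  rw [Finset.mul_sum]
  refine Finset.sum_congr rfl fun q _ => ?_
  rw [Matrix.smul_apply, smul_eq_mul]
  field_simp

theorem ric_smul (c : ℝ) (hc : c ≠ 0) (h : Curv.Coeff E) (x : E) :
    ric (fun y => c • h y) x = ric h x := by
  ext j k
  unfold ric
  refine Finset.sum_congr rfl fun i _ => Finset.sum_congr rfl fun l _ => ?_
  rw [riemann_smul c hc, inv_smul_mat c hc, Matrix.smul_apply, smul_eq_mul]
  field_simp

end coords

section mfd

variable {E₁ : Type*} [NormedAddCommGroup E₁] [NormedSpace ℝ E₁] [FiniteDimensional ℝ E₁]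
  {B : Type*} [TopologicalSpace B] [ChartedSpace E₁ B] [IsManifold 𝓘(ℝ, E₁) ∞ B]
  {E : Type*} [NormedAddCommGroup E] [NormedSpace ℝ E] [FiniteDimensional ℝ E]
  {M : Type*} [TopologicalSpace M] [ChartedSpace E M] [IsManifold 𝓘(ℝ, E) ∞ M]

theorem horizontal_zero (g : Met E M) (pr : M → B) (p : M) :
    Horizontal (E₁ := E₁) g pr p (0 : TangentSpace 𝓘(ℝ, E) p) := by
  intro w _
  have h0 : g.inner p (0 : TangentSpace 𝓘(ℝ, E) p) = 0 := map_zero _
  rw [h0]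
  rfl

theorem inner_zero_left (g : Met E M) (p : M) (w : TangentSpace 𝓘(ℝ, E) p) :
    g.inner p (0 : TangentSpace 𝓘(ℝ, E) p) w = 0 := by
  have h0 : g.inner p (0 : TangentSpace 𝓘(ℝ, E) p) = 0 := map_zero _
  rw [h0]
  rfl

theorem inner_zero_right (g : Met E M) (p : M) (w : TangentSpace 𝓘(ℝ, E) p) :
    g.inner p w (0 : TangentSpace 𝓘(ℝ, E) p) = 0 := map_zero (g.inner p w)

theorem vert {pr : M → B} {g g' : Met E M} {ε : ℝ}
    (h : Biconformal E₁ g g' pr (fun _ => 1) (fun _ => ε)) (p : M)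
    (w z : TangentSpace 𝓘(ℝ, E) p) (hw : mfderiv 𝓘(ℝ, E) 𝓘(ℝ, E₁) pr p w = 0)
    (hz : mfderiv 𝓘(ℝ, E) 𝓘(ℝ, E₁) pr p z = 0) :
    g'.inner p w z = ε ^ 2 * g.inner p w z := by
  have h1 := h p 0 0 w z (horizontal_zero g pr p) (horizontal_zero g pr p) hw hz
  rw [zero_add, zero_add, inner_zero_left] at h1
  simpa using h1

theorem hor {pr : M → B} {g g' : Met E M} {ε : ℝ}
    (h : Biconformal E₁ g g' pr (fun _ => 1) (fun _ => ε)) (p : M)
    (u v : TangentSpace 𝓘(ℝ, E) p) (hu : Horizontal (E₁ := E₁) g pr p u)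
    (hv : Horizontal (E₁ := E₁) g pr p v) :
    g'.inner p u v = g.inner p u v := by
  have hm : mfderiv 𝓘(ℝ, E) 𝓘(ℝ, E₁) pr p (0 : TangentSpace 𝓘(ℝ, E) p) = 0 := map_zero _
  have h1 := h p u v 0 0 hu hv hm hm
  rw [add_zero, add_zero, inner_zero_left g p 0] at h1
  simpa using h1

theorem hor_of_hor {pr : M → B} {g g' : Met E M} {ε : ℝ}
    (h : Biconformal E₁ g g' pr (fun _ => 1) (fun _ => ε)) (p : M)
    (u : TangentSpace 𝓘(ℝ, E) p) (hu : Horizontal (E₁ := E₁) g' pr p u) :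
    Horizontal (E₁ := E₁) g pr p u := by
  obtain ⟨a, b, hab, ha, hb⟩ := Fib.exists_decomp (E₁ := E₁) g pr p u
  have h1 := hu b hb
  have h2 := h p a 0 b b ha (horizontal_zero g pr p) hb hb
  rw [← hab, zero_add, h1, inner_zero_right g p a] at h2
  have h3 := vert h p b b hb hb
  have h4 : g'.inner p b b = 0 := by
    rw [h3]
    have h5 : (0 : ℝ) = (1 : ℝ) ^ 2 * 0 + ε ^ 2 * g.inner p b b := h2
    rw [mul_zero, zero_add] at h5
    exact h5.symm
  have hb0 : b = 0 := by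
    by_contra hne
    have h5 := g'.pos p b hne
    rw [h4] at h5
    exact lt_irrefl _ h5
  rw [hab, hb0, add_zero]
  exact ha

end mfd

end BiconfAux

variable {E₁ : Type*} [NormedAddCommGroup E₁] [NormedSpace ℝ E₁] [FiniteDimensional ℝ E₁]
  {B : Type*} [TopologicalSpace B] [ChartedSpace E₁ B] [IsManifold 𝓘(ℝ, E₁) ∞ B]
  {E₂ : Type*} [NormedAddCommGroup E₂] [NormedSpace ℝ E₂] [FiniteDimensional ℝ E₂]
  {F : Type*} [TopologicalSpace F] [ChartedSpace E₂ F] [IsManifold 𝓘(ℝ, E₂) ∞ F]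
  {E : Type*} [NormedAddCommGroup E] [NormedSpace ℝ E] [FiniteDimensional ℝ E]
  {M : Type*} [TopologicalSpace M] [ChartedSpace E M] [IsManifold 𝓘(ℝ, E) ∞ M]

theorem riemSub_of_biconf {pr : M → B} {g g' : Met E M} {gB : Met E₁ B} (hg : RiemSub g gB pr)
    {ε : ℝ} (h : Biconformal E₁ g g' pr (fun _ => 1) (fun _ => ε)) : RiemSub g' gB pr := by
  refine ⟨hg.1, fun p u v hu hv => ?_⟩
  have hu' := BiconfAux.hor_of_hor h p u hu
  have hv' := BiconfAux.hor_of_hor h p v hv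
  rw [hg.2 p u v hu' hv', BiconfAux.hor h p u v hu' hv']

theorem einstein_of_biconf {pr : M → B} {g g' : Met E M} {gB : Met E₁ B} (hg : RiemSub g gB pr)
    (hE : EinsteinFibres E₂ g pr) {ε : ℝ} (hε : 0 < ε)
    (h : Biconformal E₁ g g' pr (fun _ => 1) (fun _ => ε)) : EinsteinFibres E₂ g' pr := by
  intro b
  obtain ⟨lam, hlam, hlam'⟩ := hE b
  have hε2 : 0 < ε ^ 2 := by positivity
  refine ⟨lam / ε ^ 2, div_nonpos_of_nonpos_of_nonneg hlam hε2.le, ?_⟩
  intro σ y hσ hinj hpr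
  have hsm : ∀ᶠ y' in 𝓝 y, ContMDiffAt 𝓘(ℝ, E₂) 𝓘(ℝ, E) 1 σ y' :=
    (contMDiffAt_iff_contMDiffAt_nhds (by simp)).1 (hσ.of_le (by exact_mod_cast le_top))
  have hev : cf g' σ =ᶠ[𝓝 y] fun y' => ε ^ 2 • cf g σ y' := by
    filter_upwards [hsm, hpr.eventually_nhds] with y' h1 h2
    have hd : MDifferentiableAt 𝓘(ℝ, E₂) 𝓘(ℝ, E) σ y' := h1.mdifferentiableAt (by simp)
    have hprd : MDifferentiableAt 𝓘(ℝ, E) 𝓘(ℝ, E₁) pr (σ y') :=
      (hg.1.1 (σ y')).mdifferentiableAt (by simp)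
    have hv : ∀ v : TangentSpace 𝓘(ℝ, E₂) y',
        mfderiv 𝓘(ℝ, E) 𝓘(ℝ, E₁) pr (σ y') (mfderiv 𝓘(ℝ, E₂) 𝓘(ℝ, E) σ y' v) = 0 := by
      intro v
      have hc : mfderiv 𝓘(ℝ, E₂) 𝓘(ℝ, E₁) (pr ∘ σ) y' =
          (mfderiv 𝓘(ℝ, E) 𝓘(ℝ, E₁) pr (σ y')).comp (mfderiv 𝓘(ℝ, E₂) 𝓘(ℝ, E) σ y') :=
        mfderiv_comp y' hprd hd
      have hc2 : mfderiv 𝓘(ℝ, E₂) 𝓘(ℝ, E₁) (pr ∘ σ) y' = 0 := by
        have he : (pr ∘ σ) =ᶠ[𝓝 y'] fun _ => b := h2
        have h3 := (hasMFDerivAt_const (I := 𝓘(ℝ, E₂)) (I' := 𝓘(ℝ, E₁)) b y').congr_of_eventuallyEq he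
        exact h3.mfderiv
      have hc3 := congrArg (fun L : TangentSpace 𝓘(ℝ, E₂) y' →L[ℝ] E₁ => L v) (hc.symm.trans hc2)
      exact hc3
    ext i j
    rw [Matrix.smul_apply, smul_eq_mul]
    exact BiconfAux.vert h (σ y') _ _ (hv _) (hv _)
  rw [ric_congr hev, BiconfAux.ric_smul _ hε2.ne', hlam' σ y hσ hinj hpr, hev.self_of_nhds,
    smul_smul, div_mul_cancel₀ _ hε2.ne']

end Pool.Agent.Lib.MP_df705a_gt.Coll
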