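import Pool.Agent.Lib.MP_df705a_gt.Coll.X.Psi

/-!
# Parametrizations of the fibres
-/

open scoped Manifold ContDiff Topology
open Set Bundle Module Filter MeasureTheory

noncomputable section

namespace Pool.Agent.Lib.MP_df705a_gt.Coll

open Pool.Agent.Lib.MP_df705a_gt.Twist Pool.Agent.Lib.MP_df705a_gt.Perm
open Pool.Agent.Lib.MP_df705a_gt.Circ (Horizontal Submersion cf Para HorConf)
open Pool.Agent.Lib.MP_df705a_gt.Fib (RiemSub Biconformal)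

variable {E₁ : Type*} [NormedAddCommGroup E₁] [NormedSpace ℝ E₁] [FiniteDimensional ℝ E₁]
  {B : Type*} [TopologicalSpace B] [ChartedSpace E₁ B] [IsManifold 𝓘(ℝ, E₁) ∞ B]
  {E₂ : Type*} [NormedAddCommGroup E₂] [NormedSpace ℝ E₂] [FiniteDimensional ℝ E₂]
  {F : Type*} [TopologicalSpace F] [ChartedSpace E₂ F] [IsManifold 𝓘(ℝ, E₂) ∞ F]
  {E : Type*} [NormedAddCommGroup E] [NormedSpace ℝ E] [FiniteDimensional ℝ E]
  {M : Type*} [TopologicalSpace M] [ChartedSpace E M] [IsManifold 𝓘(ℝ, E) ∞ M]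

namespace FibParamAux

omit [FiniteDimensional ℝ E₁] [FiniteDimensional ℝ E₂] [FiniteDimensional ℝ E]
  [IsManifold 𝓘(ℝ, E₁) ∞ B] [IsManifold 𝓘(ℝ, E₂) ∞ F] [IsManifold 𝓘(ℝ, E) ∞ M] in
/-- the restriction of `Φ` to a fibre is differentiable -/
theorem mdiff_fib {pr : M → B} {U : Set B} {Φ : B × F → M} (hΦ : Triv E E₁ E₂ pr U Φ)
    {b : B} (hb : b ∈ U) (z : F) :
    MDifferentiableAt 𝓘(ℝ, E₂) 𝓘(ℝ, E) (fun z => Φ (b, z)) z := by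
  have h1 : ContMDiffAt (𝓘(ℝ, E₁).prod 𝓘(ℝ, E₂)) 𝓘(ℝ, E) ∞ Φ (b, z) :=
    hΦ.smooth.contMDiffAt ((hΦ.isOpen.prod isOpen_univ).mem_nhds ⟨hb, mem_univ z⟩)
  have h2 : ContMDiffAt 𝓘(ℝ, E₂) (𝓘(ℝ, E₁).prod 𝓘(ℝ, E₂)) ∞ (fun z : F => (b, z)) z :=
    contMDiffAt_const.prodMk contMDiffAt_id
  exact (ContMDiffAt.comp z h1 h2).mdifferentiableAt (by simp)

end FibParamAux

/-- Every parametrization of a fibre comes from a parametrization of the model fibre. -/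
theorem exists_fib_param {pr : M → B} {U : Set B} {Φ : B × F → M} (hΦ : Triv E E₁ E₂ pr U Φ)
    {b : B} (hb : b ∈ U) {g : Met E M} {h : Met E₂ F} (hh : IsFib g Φ b h) {σ : E₂ → M} {y : E₂}
    (hσ : ContMDiffAt 𝓘(ℝ, E₂) 𝓘(ℝ, E) ∞ σ y)
    (hinj : Function.Injective (mfderiv 𝓘(ℝ, E₂) 𝓘(ℝ, E) σ y))
    (hfib : ∀ᶠ y' in 𝓝 y, pr (σ y') = b) :
    ∃ τ : E₂ → F, Para E₂ τ y ∧ cf g σ =ᶠ[𝓝 y] cf h τ := by
  have hpr : pr (σ y) = b := hfib.self_of_nhds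
  obtain ⟨y₀, hy₀⟩ := hΦ.surj (σ y) (by rw [hpr]; exact hb)
  rw [hpr] at hy₀
  have hac := ac_psi hΦ hb y₀
  generalize hψ : psi E₁ E₂ Φ b y₀ = ψ at hac
  generalize hq₀ : pt E₁ E₂ b y₀ b y₀ = q₀ at hac
  have hpara : Para E ψ q₀ := hac.para.self_of_nhds
  have hψa : ∀ q, ψ q = Φ ((extChartAt 𝓘(ℝ, E₁) b).symm q.1, (extChartAt 𝓘(ℝ, E₂) y₀).symm q.2) := by
    intro q
    rw [← hψ]
    rfl
  have hq1 : q₀.1 = extChartAt 𝓘(ℝ, E₁) b b := by rw [← hq₀]; rfl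
  have hq2 : q₀.2 = extChartAt 𝓘(ℝ, E₂) y₀ y₀ := by rw [← hq₀]; rfl
  have hψq : ψ q₀ = σ y := by
    rw [hψa, hq1, hq2, extChartAt_to_inv, extChartAt_to_inv, hy₀]
  have P := Circ.I2.pullAt g hpara
  have hnear := Circ.I2.near hpara
  generalize hT : Circ.I2.tau E ψ q₀ = T at P
  have hTa : ∀ q, T q = extChartAt 𝓘(ℝ, E) (ψ q₀) (ψ q) := by
    intro q
    rw [← hT]
    rfl
  let L : (E₁ × E₂) ≃L[ℝ] E := ContinuousLinearEquiv.ofBijective (fderiv ℝ T q₀)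
    (LinearMap.ker_eq_bot.2 P.bij.1) (LinearMap.range_eq_top.2 P.bij.2)
  have hL : (L : (E₁ × E₂) →L[ℝ] E) = fderiv ℝ T q₀ := by
    ext v <;> rfl
  have hTd : HasFDerivAt T (L : (E₁ × E₂) →L[ℝ] E) q₀ := by
    rw [hL]
    exact (P.smooth.differentiableAt (by simp)).hasFDerivAt
  have hS : ContDiffAt ℝ ∞ (P.smooth.localInverse hTd (by simp)) (T q₀) :=
    P.smooth.to_localInverse hTd (by simp)
  have hS0 : P.smooth.localInverse hTd (by simp) (T q₀) = q₀ :=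
    P.smooth.localInverse_apply_image hTd (by simp)
  have hSr : ∀ᶠ z in 𝓝 (T q₀), T (P.smooth.localInverse hTd (by simp) z) = z :=
    (P.smooth.hasStrictFDerivAt' hTd (by simp)).eventually_right_inverse
  generalize P.smooth.localInverse hTd (by simp) = S at hS hS0 hSr
  -- the map `ρ`
  have hext : ContMDiffAt 𝓘(ℝ, E) 𝓘(ℝ, E) ∞ (extChartAt 𝓘(ℝ, E) (ψ q₀)) (σ y) := by
    have key : ∀ p : M, ψ q₀ = p →
        ContMDiffAt 𝓘(ℝ, E) 𝓘(ℝ, E) ∞ (extChartAt 𝓘(ℝ, E) (ψ q₀)) p := by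
      rintro _ rfl
      exact contMDiffAt_extChartAt
    exact key _ hψq
  have hc : ContDiffAt ℝ ∞ (fun y' => extChartAt 𝓘(ℝ, E) (ψ q₀) (σ y')) y :=
    (ContMDiffAt.comp y hext hσ).contDiffAt
  have hc0 : extChartAt 𝓘(ℝ, E) (ψ q₀) (σ y) = T q₀ := by rw [hTa, hψq]
  have hρ : ContDiffAt ℝ ∞ (fun y' => S (extChartAt 𝓘(ℝ, E) (ψ q₀) (σ y'))) y := by
    have h1 : ContDiffAt ℝ ∞ S (extChartAt 𝓘(ℝ, E) (ψ q₀) (σ y)) := by rw [hc0]; exact hS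
    exact h1.comp y hc
  have hρ0 : S (extChartAt 𝓘(ℝ, E) (ψ q₀) (σ y)) = q₀ := by rw [hc0, hS0]
  generalize hρd : (fun y' => S (extChartAt 𝓘(ℝ, E) (ψ q₀) (σ y'))) = ρ at hρ
  have hρa : ∀ y', ρ y' = S (extChartAt 𝓘(ℝ, E) (ψ q₀) (σ y')) := fun y' => by rw [← hρd]
  have hρq : ρ y = q₀ := by rw [hρa, hρ0]
  have hρt : Tendsto ρ (𝓝 y) (𝓝 q₀) := by
    have := hρ.continuousAt.tendsto
    rwa [hρq] at this
  have hct : Tendsto (fun y' => extChartAt 𝓘(ℝ, E) (ψ q₀) (σ y')) (𝓝 y) (𝓝 (T q₀)) := by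
    have := hc.continuousAt.tendsto
    rwa [hc0] at this
  have hsrc : ∀ᶠ y' in 𝓝 y, σ y' ∈ (extChartAt 𝓘(ℝ, E) (ψ q₀)).source := by
    have h1 : (extChartAt 𝓘(ℝ, E) (ψ q₀)).source ∈ 𝓝 (σ y) := by
      rw [← hψq]
      exact extChartAt_source_mem_nhds (I := 𝓘(ℝ, E)) (ψ q₀)
    exact hσ.continuousAt.eventually h1
  have hσψ : ∀ᶠ y' in 𝓝 y, ψ (ρ y') = σ y' := by
    filter_upwards [hsrc, hct.eventually hSr, hρt.eventually hnear] with y' h1 h2 h3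
    refine (extChartAt 𝓘(ℝ, E) (ψ q₀)).injOn h3 h1 ?_
    rw [← hTa, hρa]
    exact h2
  have hσΦ : σ =ᶠ[𝓝 y] fun y' => Φ (b, (extChartAt 𝓘(ℝ, E₂) y₀).symm (ρ y').2) := by
    filter_upwards [hσψ, hfib, hρt.eventually hac.fst] with y' h1 h2 h3
    rw [h1, h2] at h3
    rw [← h1, hψa, ← h3, extChartAt_to_inv]
  -- the map `τ`
  have hτ : ContMDiffAt 𝓘(ℝ, E₂) 𝓘(ℝ, E₂) ∞ (fun y' => (extChartAt 𝓘(ℝ, E₂) y₀).symm (ρ y').2) y := by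
    have h1 : ContMDiffAt 𝓘(ℝ, E₂) 𝓘(ℝ, E₂) ∞ (extChartAt 𝓘(ℝ, E₂) y₀).symm (ρ y).2 := by
      rw [hρq, hq2]
      exact (contMDiffOn_extChartAt_symm y₀).contMDiffAt (extChartAt_target_mem_nhds y₀)
    have h2 : ContMDiffAt 𝓘(ℝ, E₂) 𝓘(ℝ, E₂) ∞ (fun y' => (ρ y').2) y :=
      (contDiffAt_snd.comp y hρ).contMDiffAt
    exact ContMDiffAt.comp y h1 h2
  generalize hτd : (fun y' => (extChartAt 𝓘(ℝ, E₂) y₀).symm (ρ y').2) = τ at hτ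
  have hστ : σ =ᶠ[𝓝 y] fun y' => Φ (b, τ y') := by
    rw [← hτd]
    exact hσΦ
  have hτev : ∀ᶠ y' in 𝓝 y, MDifferentiableAt 𝓘(ℝ, E₂) 𝓘(ℝ, E₂) τ y' := by
    have h1 : ContMDiffAt 𝓘(ℝ, E₂) 𝓘(ℝ, E₂) 1 τ y := hτ.of_le (by simp)
    filter_upwards [(contMDiffAt_iff_contMDiffAt_nhds (by simp)).1 h1] with y' h2
    exact h2.mdifferentiableAt (by simp)
  have hd : ∀ᶠ y' in 𝓝 y, ∀ v : E₂, (mfderiv 𝓘(ℝ, E₂) 𝓘(ℝ, E) σ y' : E₂ →L[ℝ] E) v =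
      (mfderiv 𝓘(ℝ, E₂) 𝓘(ℝ, E) (fun z => Φ (b, z)) (τ y') : E₂ →L[ℝ] E)
        ((mfderiv 𝓘(ℝ, E₂) 𝓘(ℝ, E₂) τ y' : E₂ →L[ℝ] E₂) v) := by
    filter_upwards [hτev, hστ.eventually_nhds] with y' h1 h2 v
    have h3 : σ =ᶠ[𝓝 y'] (fun z => Φ (b, z)) ∘ τ := h2
    have h4 := mfderiv_comp (I := 𝓘(ℝ, E₂)) (I' := 𝓘(ℝ, E₂)) (I'' := 𝓘(ℝ, E)) y'
      (FibParamAux.mdiff_fib hΦ hb (τ y')) h1
    rw [h3.mfderiv_eq, h4]
    rfl
  refine ⟨τ, ⟨hτ, ?_⟩, ?_⟩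
  · have key : ∀ (D : E₂ →L[ℝ] E) (G : E₂ →L[ℝ] E) (T : E₂ →L[ℝ] E₂), (∀ v, D v = G (T v)) →
        Function.Injective D → Function.Bijective T := by
      intro D G T h1 h2
      have hi : Function.Injective T := fun v w hvw => h2 (by rw [h1, h1, hvw])
      exact ⟨hi, (LinearMap.injective_iff_surjective (f := (T : E₂ →ₗ[ℝ] E₂))).1 hi⟩
    exact key _ _ _ hd.self_of_nhds hinj
  · filter_upwards [hd, hστ] with y' h1 h2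
    funext i j
    have e3 : ∀ p : M, p = Φ (b, τ y') → ∀ v' w' v w : E, v' = v → w' = w →
        g.inner p v' w' = g.inner (Φ (b, τ y')) v w := by
      rintro _ rfl _ _ _ _ rfl rfl
      rfl
    exact (e3 _ h2 _ _ _ _ (h1 _) (h1 _)).trans (hh (τ y') _ _).symm

end Pool.Agent.Lib.MP_df705a_gt.Coll
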