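import Pool.Agent.Lib.MP_df705a_gt.Coll.Defs

/-!
# Horizontally conformal maps
-/

open scoped Manifold ContDiff Topology
open Set Bundle Module Filter MeasureTheory

noncomputable section

namespace Pool.Agent.Lib.MP_df705a_gt.Coll

open Pool.Agent.Lib.MP_df705a_gt.Twist Pool.Agent.Lib.MP_df705a_gt.Perm
open Pool.Agent.Lib.MP_df705a_gt.Circ (Horizontal Submersion cf Para HorConf)
open Pool.Agent.Lib.MP_df705a_gt.Fib (RiemSub Biconformal)

variable {E₁ : Type*} [NormedAddCommGroup E₁] [NormedSpace ℝ E₁] [FiniteDimensional ℝ E₁]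
  {B : Type*} [TopologicalSpace B] [ChartedSpace E₁ B] [IsManifold 𝓘(ℝ, E₁) ∞ B]
  {E₂ : Type*} [NormedAddCommGroup E₂] [NormedSpace ℝ E₂] [FiniteDimensional ℝ E₂]
  {F : Type*} [TopologicalSpace F] [ChartedSpace E₂ F] [IsManifold 𝓘(ℝ, E₂) ∞ F]
  {E : Type*} [NormedAddCommGroup E] [NormedSpace ℝ E] [FiniteDimensional ℝ E]
  {M : Type*} [TopologicalSpace M] [ChartedSpace E M] [IsManifold 𝓘(ℝ, E) ∞ M]

theorem horConf_of_conf {pr : M → B} {g g' : Met E M} {gB : Met E₁ B} (hg : HorConf g gB pr)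
    {ψ : M → ℝ} (h : IsConf ψ g g') : HorConf g' gB pr := by
  intro p
  obtain ⟨r, hr, hr2⟩ := hg p
  have hpos : 0 < Real.exp (ψ p) ^ 2 := pow_pos (Real.exp_pos _) 2
  have hhor : ∀ u : TangentSpace 𝓘(ℝ, E) p, Horizontal (E₁ := E₁) g' pr p u →
      Horizontal (E₁ := E₁) g pr p u := by
    intro u hu w hw
    have h1 := hu w hw
    rw [h p u w] at h1
    rcases mul_eq_zero.1 h1 with h2 | h2
    · exact absurd h2 hpos.ne'
    · exact h2
  refine ⟨r * (Real.exp (ψ p) ^ 2)⁻¹, mul_pos hr (inv_pos.2 hpos), fun u v hu hv => ?_⟩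
  rw [hr2 u v (hhor u hu) (hhor v hv), h p u v, mul_assoc, inv_mul_cancel_left₀ hpos.ne']

theorem horConf_of_line (hd : finrank ℝ E₁ = 1) {pr : M → B} (hpr : Submersion E E₁ pr)
    (g : Met E M) (gB : Met E₁ B) : HorConf g gB pr := by
  intro p
  have hd' : finrank ℝ (TangentSpace 𝓘(ℝ, E₁) (pr p)) = 1 := hd
  have hinj : ∀ u : TangentSpace 𝓘(ℝ, E) p, Horizontal (E₁ := E₁) g pr p u →
      mfderiv 𝓘(ℝ, E) 𝓘(ℝ, E₁) pr p u = 0 → u = 0 := by
    intro u hu h0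
    by_contra hne
    have h1 := g.pos p u hne
    rw [hu u h0] at h1
    exact lt_irrefl _ h1
  obtain ⟨e, he0, he⟩ := finrank_eq_one_iff'.1 hd'
  obtain ⟨x, hx⟩ := hpr.2 p e
  obtain ⟨a, b, hab, ha, hb⟩ := Fib.exists_decomp (E₁ := E₁) g pr p x
  have hae : mfderiv 𝓘(ℝ, E) 𝓘(ℝ, E₁) pr p a = e := by
    rw [← hx, hab, map_add, hb, add_zero]
  have ha0 : a ≠ 0 := by
    intro h0
    apply he0
    rw [← hae, h0, map_zero]
  have hdec : ∀ u : TangentSpace 𝓘(ℝ, E) p, Horizontal (E₁ := E₁) g pr p u →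
      ∃ c : ℝ, u = c • a := by
    intro u hu
    obtain ⟨c, hc⟩ := he (mfderiv 𝓘(ℝ, E) 𝓘(ℝ, E₁) pr p u)
    refine ⟨c, ?_⟩
    have h1 : Horizontal (E₁ := E₁) g pr p (u - c • a) := by
      intro w hw
      have h2 : g.inner p (u - c • a) w = g.inner p u w - c * g.inner p a w := by
        rw [map_sub, map_smul]
        rfl
      rw [h2, hu w hw, ha w hw]
      ring
    have h3 : mfderiv 𝓘(ℝ, E) 𝓘(ℝ, E₁) pr p (u - c • a) = 0 := by
      rw [map_sub, map_smul, hae, hc, sub_self]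
    exact sub_eq_zero.1 (hinj _ h1 h3)
  have hga := g.pos p a ha0
  have hge := gB.pos (pr p) e he0
  refine ⟨gB.inner (pr p) e e * (g.inner p a a)⁻¹, mul_pos hge (inv_pos.2 hga),
    fun u v hu hv => ?_⟩
  obtain ⟨c, hc⟩ := hdec u hu
  obtain ⟨d, hd⟩ := hdec v hv
  have h4 : gB.inner (pr p) (c • e) (d • e) = c * d * gB.inner (pr p) e e := by
    rw [map_smul, map_smul]
    change d * (c * gB.inner (pr p) e e) = _
    ring
  have h5 : g.inner p (c • a) (d • a) = c * d * g.inner p a a := by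
    rw [map_smul, map_smul]
    change d * (c * g.inner p a a) = _
    ring
  have h6 : mfderiv 𝓘(ℝ, E) 𝓘(ℝ, E₁) pr p u = c • e := by
    rw [hc, map_smul, hae]
  have h7 : mfderiv 𝓘(ℝ, E) 𝓘(ℝ, E₁) pr p v = d • e := by
    rw [hd, map_smul, hae]
  rw [h6, h7, hc, hd, h4, h5]
  field_simp

theorem horConf_of_riemSub {pr : M → B} {g : Met E M} {gB : Met E₁ B} (hg : RiemSub g gB pr) :
    HorConf g gB pr := by
  intro p
  refine ⟨1, one_pos, fun u v hu hv => ?_⟩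
  rw [one_mul]
  exact hg.2 p u v hu hv

end Pool.Agent.Lib.MP_df705a_gt.Coll
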