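import Pool.Agent.Lib.MP_df705a_gt.Mg.G011

/-!
# Existence of induced and of collapsed metrics
-/

open scoped Manifold ContDiff Topology
open Set Bundle Module Filter MeasureTheory

noncomputable section

set_option linter.unusedSectionVars false

namespace Pool.Agent.Lib.MP_df705a_gt.Coll

open Pool.Agent.Lib.MP_df705a_gt.Twist Pool.Agent.Lib.MP_df705a_gt.Perm
open Pool.Agent.Lib.MP_df705a_gt.Circ (Horizontal Submersion cf Para HorConf)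
open Pool.Agent.Lib.MP_df705a_gt.Fib (RiemSub Biconformal)

variable {E₁ : Type*} [NormedAddCommGroup E₁] [NormedSpace ℝ E₁] [FiniteDimensional ℝ E₁]
  {B : Type*} [TopologicalSpace B] [ChartedSpace E₁ B] [IsManifold 𝓘(ℝ, E₁) ∞ B]
  {E₂ : Type*} [NormedAddCommGroup E₂] [NormedSpace ℝ E₂] [FiniteDimensional ℝ E₂]
  {F : Type*} [TopologicalSpace F] [ChartedSpace E₂ F] [IsManifold 𝓘(ℝ, E₂) ∞ F]
  {E : Type*} [NormedAddCommGroup E] [NormedSpace ℝ E] [FiniteDimensional ℝ E]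
  {M : Type*} [TopologicalSpace M] [ChartedSpace E M] [IsManifold 𝓘(ℝ, E) ∞ M]

namespace IsFibAux

theorem vec_smooth {σ : E₂ → M} {U : Set E₂} (hU : IsOpen U)
    (hσ : ContMDiffOn 𝓘(ℝ, E₂) 𝓘(ℝ, E) ∞ σ U) (v : E₂) :
    ContMDiffOn 𝓘(ℝ, E₂) 𝓘(ℝ, E).tangent ∞
    (fun y : E₂ => (TotalSpace.mk' E (σ y)
      (mfderiv 𝓘(ℝ, E₂) 𝓘(ℝ, E) σ y v : TangentSpace 𝓘(ℝ, E) (σ y)) :
      TangentBundle 𝓘(ℝ, E) M)) U := by
  have h2 := hσ.contMDiffOn_tangentMapWithin (m := ∞) (by simp) hU.uniqueMDiffOn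
  have h3 : ContMDiff 𝓘(ℝ, E₂) 𝓘(ℝ, E₂).tangent ∞
      (fun y : E₂ => (TotalSpace.mk' E₂ y v :
        TangentBundle 𝓘(ℝ, E₂) E₂)) := by
    intro y
    exact contMDiffAt_vectorSpace_iff_contDiffAt.2 contDiffAt_const
  have h4 := h2.comp h3.contMDiffOn (s := U) (fun y hy => hy)
  refine h4.congr ?_
  intro y hy
  simp only [Function.comp_apply, tangentMapWithin, TotalSpace.mk']
  rw [mfderivWithin_of_isOpen hU hy]

/-- the coefficients of a metric in a smooth map defined on an open set are smooth -/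
theorem form_smooth (g : Met E M) {σ : E₂ → M} {U : Set E₂} (hUo : IsOpen U)
    (hσ : ContMDiffOn 𝓘(ℝ, E₂) 𝓘(ℝ, E) ∞ σ U) {q : E₂} (hq : q ∈ U) (v w : E₂) :
    ContDiffAt ℝ ∞ (fun y => g.inner (σ y) (mfderiv 𝓘(ℝ, E₂) 𝓘(ℝ, E) σ y v)
      (mfderiv 𝓘(ℝ, E₂) 𝓘(ℝ, E) σ y w)) q := by
  have main : ContMDiffOn 𝓘(ℝ, E₂) 𝓘(ℝ) ∞ (fun y => g.inner (σ y)
      (mfderiv 𝓘(ℝ, E₂) 𝓘(ℝ, E) σ y v) (mfderiv 𝓘(ℝ, E₂) 𝓘(ℝ, E) σ y w)) U := by
    intro y hy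
    have : ContMDiffWithinAt 𝓘(ℝ, E₂) (𝓘(ℝ, E).prod 𝓘(ℝ)) ∞
        (fun y ↦ TotalSpace.mk' ℝ (E := Bundle.Trivial M ℝ) (σ y)
          (g.inner (σ y) (mfderiv 𝓘(ℝ, E₂) 𝓘(ℝ, E) σ y v)
            (mfderiv 𝓘(ℝ, E₂) 𝓘(ℝ, E) σ y w))) U y := by
      apply ContMDiffWithinAt.clm_bundle_apply₂ (F₁ := E) (F₂ := E)
      · exact ContMDiffAt.comp_contMDiffWithinAt y g.contMDiff.contMDiffAt (hσ y hy)
      · exact vec_smooth hUo hσ v y hy
      · exact vec_smooth hUo hσ w y hy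
    simp only [contMDiffWithinAt_totalSpace] at this
    exact this.2
  exact (contMDiffOn_iff_contDiffOn.1 main).contDiffAt (hUo.mem_nhds hq)

/-- the scalar product -/
def gi (g : Met E M) (p : M) : E →L[ℝ] E →L[ℝ] ℝ := g.inner p

/-- the differential -/
def dm (E' E'' : Type*) [NormedAddCommGroup E'] [NormedSpace ℝ E'] [NormedAddCommGroup E'']
    [NormedSpace ℝ E''] {M' M'' : Type*} [TopologicalSpace M'] [ChartedSpace E' M']
    [TopologicalSpace M''] [ChartedSpace E'' M''] (f : M' → M'') (p : M') : E' →L[ℝ] E'' :=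
  mfderiv 𝓘(ℝ, E') 𝓘(ℝ, E'') f p

/-- the pullback of the form `G` by `D` -/
def pb (G : E →L[ℝ] E →L[ℝ] ℝ) (D : E₂ →L[ℝ] E) : E₂ →L[ℝ] E₂ →L[ℝ] ℝ := G.bilinearComp D D

theorem pb_apply (G : E →L[ℝ] E →L[ℝ] ℝ) (D : E₂ →L[ℝ] E) (v w : E₂) :
    pb G D v w = G (D v) (D w) := rfl

end IsFibAux

open IsFibAux in
theorem exists_isFib {pr : M → B} {U : Set B} {Φ : B × F → M} (hΦ : Triv E E₁ E₂ pr U Φ)
    (g : Met E M) {x : B} (hx : x ∈ U) : ∃ h : Met E₂ F, IsFib g Φ x h := by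
  have hsec : ContMDiff 𝓘(ℝ, E₂) (𝓘(ℝ, E₁).prod 𝓘(ℝ, E₂)) ∞ (fun y : F => (x, y)) :=
    contMDiff_const.prodMk contMDiff_id
  have hfib : ContMDiff 𝓘(ℝ, E₂) 𝓘(ℝ, E) ∞ (fun y : F => Φ (x, y)) := by
    intro y
    have h1 : ContMDiffAt (𝓘(ℝ, E₁).prod 𝓘(ℝ, E₂)) 𝓘(ℝ, E) ∞ Φ (x, y) :=
      hΦ.smooth.contMDiffAt ((hΦ.isOpen.prod isOpen_univ).mem_nhds ⟨hx, mem_univ y⟩)
    exact ContMDiffAt.comp y h1 (hsec y)
  have hinj : ∀ y : F, Function.Injective (mfderiv 𝓘(ℝ, E₂) 𝓘(ℝ, E) (fun y : F => Φ (x, y)) y) := by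
    intro y
    have h1 : MDifferentiableAt (𝓘(ℝ, E₁).prod 𝓘(ℝ, E₂)) 𝓘(ℝ, E) Φ (x, y) :=
      (hΦ.smooth.contMDiffAt ((hΦ.isOpen.prod isOpen_univ).mem_nhds
        ⟨hx, mem_univ y⟩)).mdifferentiableAt (by simp)
    have h2 : MDifferentiableAt 𝓘(ℝ, E₂) (𝓘(ℝ, E₁).prod 𝓘(ℝ, E₂)) (fun y : F => (x, y)) y :=
      (hsec y).mdifferentiableAt (by simp)
    have h3 := mfderiv_comp (I := 𝓘(ℝ, E₂)) (I' := 𝓘(ℝ, E₁).prod 𝓘(ℝ, E₂)) (I'' := 𝓘(ℝ, E)) y h1 h2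
    have h4 : mfderiv 𝓘(ℝ, E₂) (𝓘(ℝ, E₁).prod 𝓘(ℝ, E₂)) (fun y : F => (x, y)) y =
      ContinuousLinearMap.inr ℝ E₁ E₂ := mfderiv_prod_right
    have h5 : mfderiv 𝓘(ℝ, E₂) 𝓘(ℝ, E) (fun y : F => Φ (x, y)) y =
      (mfderiv (𝓘(ℝ, E₁).prod 𝓘(ℝ, E₂)) 𝓘(ℝ, E) Φ (x, y)).comp
        (mfderiv 𝓘(ℝ, E₂) (𝓘(ℝ, E₁).prod 𝓘(ℝ, E₂)) (fun y : F => (x, y)) y) := h3
    rw [h5, h4]
    intro v w hvw
    have h6 := (hΦ.bij x hx y).1 hvw
    exact congrArg Prod.snd h6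
  suffices hmet : ∃ h : Met E₂ F, ∀ (y : F) (v w : TangentSpace 𝓘(ℝ, E₂) y), h.inner y v w =
      pb (E₂ := E₂) (gi g (Φ (x, y))) (dm E₂ E (fun y : F => Φ (x, y)) y) v w by
    obtain ⟨h, hh⟩ := hmet
    exact ⟨h, fun y v w => hh y v w⟩
  refine exists_met (E := E₂) (M := F)
    (fun y => pb (E₂ := E₂) (gi g (Φ (x, y))) (dm E₂ E (fun y : F => Φ (x, y)) y)) ?_ ?_ ?_
  · intro y u v
    exact g.symm _ _ _
  · intro y u hu
    refine g.pos _ _ ?_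
    intro h0
    exact hu (hinj y (h0.trans (ContinuousLinearMap.map_zero
      (mfderiv 𝓘(ℝ, E₂) 𝓘(ℝ, E) (fun y : F => Φ (x, y)) y)).symm))
  · intro z v w
    have hσ : ContMDiffOn 𝓘(ℝ, E₂) 𝓘(ℝ, E) ∞
        (fun y => Φ (x, (extChartAt 𝓘(ℝ, E₂) z).symm y)) (extChartAt 𝓘(ℝ, E₂) z).target :=
      hfib.comp_contMDiffOn (contMDiffOn_extChartAt_symm z)
    refine (form_smooth g (isOpen_extChartAt_target z) hσ (mem_extChartAt_target z) v
      w).congr_of_eventuallyEq ?_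
    filter_upwards [extChartAt_target_mem_nhds (I := 𝓘(ℝ, E₂)) z] with y hy
    have h1 := mfderiv_comp (I := 𝓘(ℝ, E₂)) (I' := 𝓘(ℝ, E₂)) (I'' := 𝓘(ℝ, E)) y
      ((hfib ((extChartAt 𝓘(ℝ, E₂) z).symm y)).mdifferentiableAt (by simp))
      (symm_mdiff 𝓘(ℝ, E₂) z hy)
    have h2 : mfderiv 𝓘(ℝ, E₂) 𝓘(ℝ, E) (fun y => Φ (x, (extChartAt 𝓘(ℝ, E₂) z).symm y)) y =
      (mfderiv 𝓘(ℝ, E₂) 𝓘(ℝ, E) (fun y : F => Φ (x, y)) ((extChartAt 𝓘(ℝ, E₂) z).symm y)).comp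
        (mfderiv 𝓘(ℝ, E₂) 𝓘(ℝ, E₂) (extChartAt 𝓘(ℝ, E₂) z).symm y) := h1
    rw [h2]
    rfl

namespace IsFibAux

/-- the orthogonal projection onto a subspace -/
theorem exists_proj {V : Type*} [AddCommGroup V] [Module ℝ V] [FiniteDimensional ℝ V]
    (b : LinearMap.BilinForm ℝ V) (hs : ∀ u v, b u v = b v u) (hp : ∀ u, u ≠ 0 → 0 < b u u)
    (W : Submodule ℝ V) : ∃ P : V →ₗ[ℝ] V, (∀ u, P u ∈ W) ∧ ∀ u, ∀ w ∈ W, b (u - P u) w = 0 := by
  have hr : b.IsRefl := fun x y h => by rw [hs]; exact h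
  have hn : (b.restrict W).Nondegenerate := by
    have h1 : ∀ w : W, (∀ z : W, (b.restrict W) w z = 0) → w = 0 := by
      intro w h
      by_contra h0
      have h2 : (w : V) ≠ 0 := fun h3 => h0 (Subtype.ext h3)
      have h4 := hp _ h2
      have h5 : b w w = 0 := h w
      rw [h5] at h4
      exact lt_irrefl _ h4
    refine ⟨h1, fun w h => h1 w fun z => ?_⟩
    have h6 : b z w = 0 := h z
    change b w z = 0
    rw [hs]
    exact h6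
  have hc := LinearMap.BilinForm.isCompl_orthogonal_of_restrict_nondegenerate hr hn
  refine ⟨W.subtype ∘ₗ W.projectionOnto _ hc, fun u => Submodule.coe_mem _, fun u w hw => ?_⟩
  have h1 : u - W.projectionOnto _ hc u ∈ b.orthogonal W := by
    rw [← Submodule.projectionOnto_apply_eq_zero_iff hc, map_sub,
      Submodule.projectionOnto_apply_left, sub_self]
  rw [hs]
  exact h1 w hw

variable (E₁) in
/-- The orthogonal projection onto the kernel of the differential. -/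
theorem exists_vert (g : Met E M) (pr : M → B) (p : M) :
    ∃ P : E →L[ℝ] E, (∀ u : E, dm E E₁ pr p (P u) = 0) ∧
      ∀ u w : E, dm E E₁ pr p w = 0 →
        gi g p (u - P u) w = 0 := by
  let b : LinearMap.BilinForm ℝ E :=
    LinearMap.mk₂ ℝ (fun u v => gi g p u v) (fun u v w => by
      rw [map_add]; rfl) (fun c u v => by
      rw [map_smul]; rfl) (fun u v w => map_add (gi g p u) v w)
      (fun c u v => map_smul (gi g p u) c v)
  obtain ⟨P, h1, h2⟩ := exists_proj b (fun u v => g.symm p u v) (fun u hu => g.pos p u hu)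
    (LinearMap.ker (dm E E₁ pr p : E →ₗ[ℝ] E₁))
  exact ⟨LinearMap.toContinuousLinearMap P, fun u => h1 u, fun u w hw => h2 u w hw⟩

variable (E₁) in
/-- The orthogonal projection onto the kernel of the differential. -/
def vp (g : Met E M) (pr : M → B) (p : M) : E →L[ℝ] E := (exists_vert E₁ g pr p).choose

theorem vp_vert (g : Met E M) (pr : M → B) (p : M) (u : E) :
    dm E E₁ pr p (vp E₁ g pr p u) = 0 :=
  (exists_vert E₁ g pr p).choose_spec.1 u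

theorem vp_orth (g : Met E M) (pr : M → B) (p : M) (u w : E)
    (hw : dm E E₁ pr p w = 0) :
    gi g p (u - vp E₁ g pr p u) w = 0 :=
  (exists_vert E₁ g pr p).choose_spec.2 u w hw

theorem vp_eq (g : Met E M) (pr : M → B) (p : M) {u c : E}
    (hc : dm E E₁ pr p c = 0)
    (ho : ∀ w : E, dm E E₁ pr p w = 0 →
      gi g p (u - c) w = 0) : vp E₁ g pr p u = c := by
  by_contra hne
  have h1 : c - vp E₁ g pr p u ≠ 0 := fun h => hne (sub_eq_zero.1 h).symm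
  have h2 : dm E E₁ pr p (c - vp E₁ g pr p u) = 0 := by
    rw [map_sub, hc, vp_vert, sub_zero]
  have h3 := vp_orth g pr p u _ h2
  have h4 := ho _ h2
  have h5 : gi g p (c - vp E₁ g pr p u) (c - vp E₁ g pr p u) = 0 := by
    have h6 : c - vp E₁ g pr p u = (u - vp E₁ g pr p u) - (u - c) := by abel
    have h7 : ∀ a a' e : E, gi g p a e = 0 → gi g p a' e = 0 → gi g p (a - a') e = 0 := by
      intro a a' e e1 e2
      rw [map_sub, _root_.sub_apply, e1, e2, sub_zero]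
    have h8 := h7 _ _ _ h3 h4
    rw [← h6] at h8
    exact h8
  have h8 : 0 < gi g p (c - vp E₁ g pr p u) (c - vp E₁ g pr p u) :=
    g.pos p _ h1
  exact h8.ne' h5

/-- the collapsed form -/
def bf (G : E →L[ℝ] E →L[ℝ] ℝ) (P : E →L[ℝ] E) (ε : ℝ) : E →L[ℝ] E →L[ℝ] ℝ :=
  G + (ε ^ 2 - 1) • G.bilinearComp P P

theorem bf_apply (G : E →L[ℝ] E →L[ℝ] ℝ) (P : E →L[ℝ] E) (ε : ℝ) (u v : E) :
    bf G P ε u v = G u v + (ε ^ 2 - 1) * G (P u) (P v) := rfl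

theorem clm_smooth {X V W : Type*} [NormedAddCommGroup X] [NormedSpace ℝ X]
    [NormedAddCommGroup V] [NormedSpace ℝ V] [FiniteDimensional ℝ V] [NormedAddCommGroup W]
    [NormedSpace ℝ W] {f : X → V →L[ℝ] W} {q : X}
    (h : ∀ u, ContDiffAt ℝ ∞ (fun y => f y u) q) : ContDiffAt ℝ ∞ f q := by
  let d := finrank ℝ V
  have hd : d = finrank ℝ (Fin d → ℝ) := (finrank_fin_fun ℝ).symm
  let e₁ := ContinuousLinearEquiv.ofFinrankEq hd
  let e₂ := (e₁.arrowCongr (1 : W ≃L[ℝ] W)).trans (ContinuousLinearEquiv.piRing (Fin d))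
  rw [← Function.id_comp f, ← e₂.symm_comp_self]
  exact e₂.symm.contDiff.contDiffAt.comp q (contDiffAt_pi.mpr fun i => h _)

theorem bf_bic (g : Met E M) (pr : M → B) (p : M) (ε : ℝ) {u v w z : E}
    (hu : ∀ w : E, dm E E₁ pr p w = 0 → gi g p u w = 0)
    (hv : ∀ w : E, dm E E₁ pr p w = 0 → gi g p v w = 0)
    (hw : dm E E₁ pr p w = 0) (hz : dm E E₁ pr p z = 0) :
    bf (gi g p) (vp E₁ g pr p) ε (u + w) (v + z) = 1 ^ 2 * gi g p u v + ε ^ 2 * gi g p w z := by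
  have h1 : vp E₁ g pr p (u + w) = w := by
    refine vp_eq g pr p hw fun w' hw' => ?_
    rw [add_sub_cancel_right]
    exact hu w' hw'
  have h2 : vp E₁ g pr p (v + z) = z := by
    refine vp_eq g pr p hz fun w' hw' => ?_
    rw [add_sub_cancel_right]
    exact hv w' hw'
  have h3 : gi g p w v = 0 := by
    have h4 : gi g p w v = gi g p v w := g.symm p w v
    rw [h4]
    exact hv w hw
  rw [bf_apply, h1, h2, map_add, map_add, _root_.add_apply, _root_.add_apply, h3, hu z hz]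
  ring

theorem bf_pos (g : Met E M) (pr : M → B) (p : M) {ε : ℝ} (hε : 0 < ε) {u : E} (hu : u ≠ 0) :
    0 < bf (gi g p) (vp E₁ g pr p) ε u u := by
  have h1 := vp_vert (E₁ := E₁) g pr p u
  have h2 := bf_bic (u := u - vp E₁ g pr p u) (v := u - vp E₁ g pr p u) (w := vp E₁ g pr p u)
    (z := vp E₁ g pr p u) g pr p ε (fun w hw => vp_orth g pr p u w hw)
    (fun w hw => vp_orth g pr p u w hw) h1 h1
  rw [sub_add_cancel] at h2
  rw [h2]
  have h3 : ∀ a : E, 0 ≤ gi g p a a := by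
    intro a
    by_cases ha : a = 0
    · rw [ha, map_zero]
    · exact (show 0 < gi g p a a from g.pos p a ha).le
  have h4 : 0 < ε ^ 2 := by positivity
  by_cases h5 : vp E₁ g pr p u = 0
  · have h6 : 0 < gi g p (u - vp E₁ g pr p u) (u - vp E₁ g pr p u) := by
      refine g.pos p _ ?_
      rw [h5]
      rw [sub_zero]
      exact hu
    have h7 := h3 (vp E₁ g pr p u)
    nlinarith [mul_nonneg h4.le h7]
  · have h6 : 0 < gi g p (vp E₁ g pr p u) (vp E₁ g pr p u) := g.pos p _ h5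
    have h7 := h3 (u - vp E₁ g pr p u)
    nlinarith [mul_pos h4 h6]

theorem bf_symm (g : Met E M) (pr : M → B) (p : M) (ε : ℝ) (u v : E) :
    bf (gi g p) (vp E₁ g pr p) ε u v = bf (gi g p) (vp E₁ g pr p) ε v u := by
  have h : ∀ a b : E, gi g p a b = gi g p b a := fun a b => g.symm p a b
  rw [bf_apply, bf_apply, h u v, h (vp E₁ g pr p u)]

/-- the vertical part in an adapted parametrization -/
def VV (Γ : E₁ →L[ℝ] E₂) : (E₁ × E₂) →L[ℝ] (E₁ × E₂) :=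
  (ContinuousLinearMap.inr ℝ E₁ E₂).comp
    (ContinuousLinearMap.snd ℝ E₁ E₂ - Γ.comp (ContinuousLinearMap.fst ℝ E₁ E₂))

theorem VV_apply (Γ : E₁ →L[ℝ] E₂) (a : E₁ × E₂) : VV Γ a = (0, a.2 - Γ a.1) := rfl

theorem vp_AC (g : Met E M) {pr : M → B} (hpr : Submersion E E₁ pr) {σ : E₁ × E₂ → M}
    {q : E₁ × E₂} {z : B} (hA : Fib.AC E pr σ q z) :
    ∀ᶠ y in 𝓝 q, ∀ a : E₁ × E₂, vp E₁ g pr (σ y) (dm (E₁ × E₂) E σ y a) =
      dm (E₁ × E₂) E σ y (VV (Fib.gam g σ y) a) := by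
  filter_upwards [hA.para, hA.src.eventually_nhds, hA.fst.eventually_nhds] with y hP hsrc hfst
  have hy1 : y.1 ∈ (extChartAt 𝓘(ℝ, E₁) z).target := by
    rw [← hfst.self_of_nhds]
    exact (extChartAt 𝓘(ℝ, E₁) z).map_source hsrc.self_of_nhds
  -- the projection in the parametrization
  have hpσ : (pr ∘ σ) =ᶠ[𝓝 y] (extChartAt 𝓘(ℝ, E₁) z).symm ∘ Prod.fst := by
    filter_upwards [hsrc, hfst] with y' h1 h2
    simp only [Function.comp_apply]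
    rw [← h2, (extChartAt 𝓘(ℝ, E₁) z).left_inv h1]
  have hσd : MDifferentiableAt 𝓘(ℝ, E₁ × E₂) 𝓘(ℝ, E) σ y :=
    hP.smooth.mdifferentiableAt (by simp)
  have hprd : MDifferentiableAt 𝓘(ℝ, E) 𝓘(ℝ, E₁) pr (σ y) :=
    (hpr.1 (σ y)).mdifferentiableAt (by simp)
  have hfd : MDifferentiableAt 𝓘(ℝ, E₁ × E₂) 𝓘(ℝ, E₁) (Prod.fst : E₁ × E₂ → E₁) y :=
    (differentiableAt_fst (𝕜 := ℝ)).mdifferentiableAt
  have hsd := symm_mdiff 𝓘(ℝ, E₁) z hy1
  have hfm : mfderiv 𝓘(ℝ, E₁ × E₂) 𝓘(ℝ, E₁) (Prod.fst : E₁ × E₂ → E₁) y =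
      ContinuousLinearMap.fst ℝ E₁ E₂ := by
    rw [mfderiv_eq_fderiv]
    exact fderiv_fst
  have hD : ∀ w : E₁ × E₂, dm E E₁ pr (σ y) (dm (E₁ × E₂) E σ y w) =
      dm E₁ E₁ (extChartAt 𝓘(ℝ, E₁) z).symm y.1 w.1 := by
    intro w
    have h1 := mfderiv_comp (I := 𝓘(ℝ, E₁ × E₂)) (I' := 𝓘(ℝ, E)) (I'' := 𝓘(ℝ, E₁)) y hprd hσd
    have h2 := mfderiv_comp (I := 𝓘(ℝ, E₁ × E₂)) (I' := 𝓘(ℝ, E₁)) (I'' := 𝓘(ℝ, E₁)) y hsd hfd
    have h3 : mfderiv 𝓘(ℝ, E₁ × E₂) 𝓘(ℝ, E₁) (pr ∘ σ) y =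
        mfderiv 𝓘(ℝ, E₁ × E₂) 𝓘(ℝ, E₁) ((extChartAt 𝓘(ℝ, E₁) z).symm ∘ Prod.fst) y :=
      hpσ.mfderiv_eq
    have h4 : mfderiv 𝓘(ℝ, E₁ × E₂) 𝓘(ℝ, E₁) (pr ∘ σ) y w =
        mfderiv 𝓘(ℝ, E₁ × E₂) 𝓘(ℝ, E₁) ((extChartAt 𝓘(ℝ, E₁) z).symm ∘ Prod.fst) y w := by
      exact DFunLike.congr_fun (show (mfderiv 𝓘(ℝ, E₁ × E₂) 𝓘(ℝ, E₁) (pr ∘ σ) y :
        (E₁ × E₂) →L[ℝ] E₁) = mfderiv 𝓘(ℝ, E₁ × E₂) 𝓘(ℝ, E₁)
          ((extChartAt 𝓘(ℝ, E₁) z).symm ∘ Prod.fst) y from h3) w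
    rw [h1, h2, hfm] at h4
    exact h4
  have hinj : Function.Injective (dm E₁ E₁ (extChartAt 𝓘(ℝ, E₁) z).symm y.1) :=
    symm_injective 𝓘(ℝ, E₁) z hy1
  have hsymm : ∀ v w, Fib.gσ g σ y v w = Fib.gσ g σ y w v := fun v w => g.symm _ _ _
  have hΓ : ∀ u, Fib.gam g σ y u = ∑ i, (∑ j, -(Fib.fm g σ y)⁻¹ i j *
      Fib.gσ g σ y (0, finBasis ℝ E₂ j) (u, 0)) • finBasis ℝ E₂ i := by
    intro u
    unfold Fib.gam
    rw [sum_apply]
    refine Finset.sum_congr rfl fun i _ => ?_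
    rw [ContinuousLinearMap.smulRight_apply, sum_apply]
    congr 1
  have hdet : IsUnit (Fib.fm g σ y).det := (Fib.G2.fm_pos g hP).det_pos.ne'.isUnit
  have horth : ∀ (u : E₁) (w : E₂), Fib.gσ g σ y (u, Fib.gam g σ y u) (0, w) = 0 := fun u w =>
    Fib.G3.orth _ hsymm (Fib.fm g σ y) (fun i j => rfl) hdet u _ (hΓ u) w
  intro a
  refine vp_eq g pr (σ y) ?_ fun w hw => ?_
  · rw [hD]
    exact map_zero _
  · obtain ⟨w', rfl⟩ : ∃ w' : E₁ × E₂, dm (E₁ × E₂) E σ y w' = w := hP.bij.2 w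
    rw [hD w'] at hw
    have h1 : w'.1 = 0 := hinj (hw.trans (map_zero _).symm)
    have h2 : w' = (0, w'.2) := Prod.ext h1 rfl
    rw [← map_sub]
    have h3 : a - VV (Fib.gam g σ y) a = (a.1, Fib.gam g σ y a.1) := by
      rw [VV_apply]
      refine Prod.ext ?_ ?_
      · simp
      · simp
    rw [h3]
    change Fib.gσ g σ y (a.1, Fib.gam g σ y a.1) w' = 0
    rw [h2]
    exact horth _ _

theorem bf_AC (g : Met E M) {pr : M → B} (hpr : Submersion E E₁ pr) {σ : E₁ × E₂ → M}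
    {q : E₁ × E₂} {z : B} (hA : Fib.AC E pr σ q z) (ε : ℝ) :
    ∀ᶠ y in 𝓝 q, ∀ a b : E₁ × E₂, bf (gi g (σ y)) (vp E₁ g pr (σ y)) ε
      (dm (E₁ × E₂) E σ y a) (dm (E₁ × E₂) E σ y b) =
      bf (Fib.gσ g σ y) (VV (Fib.gam g σ y)) ε a b := by
  filter_upwards [vp_AC g hpr hA] with y hy a b
  rw [bf_apply, bf_apply, hy a, hy b]
  rfl

theorem gam_smooth (g : Met E M) {pr : M → B} {σ : E₁ × E₂ → M}
    {q : E₁ × E₂} {z : B} (hA : Fib.AC E pr σ q z) : ContDiffAt ℝ ∞ (Fib.gam g σ) q := by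
  have hf : ∀ i j, ContDiffAt ℝ ∞ (fun y => Fib.fm g σ y i j) q := fun i j =>
    Fib.G2.gσ_smooth g hA.para _ _
  apply clm_smooth
  intro u
  have h2 : (fun y => Fib.gam g σ y u) = fun y => ∑ i, (∑ j, -(Fib.fm g σ y)⁻¹ i j *
      Fib.gσ g σ y (0, finBasis ℝ E₂ j) (u, 0)) • finBasis ℝ E₂ i := by
    funext y
    unfold Fib.gam
    rw [sum_apply]
    refine Finset.sum_congr rfl fun i _ => ?_
    rw [ContinuousLinearMap.smulRight_apply, sum_apply]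
    congr 1
  rw [h2]
  refine ContDiffAt.sum fun i _ => ?_
  refine ContDiffAt.smul (ContDiffAt.sum fun j _ => ?_) contDiffAt_const
  refine ContDiffAt.mul ?_ (Fib.G2.gσ_smooth g hA.para _ _)
  exact (contDiffAt_inv hf (Fib.G2.fm_pos g hA.para.self_of_nhds).det_pos.ne' i j).neg

theorem bf_smooth (g : Met E M) {pr : M → B} {σ : E₁ × E₂ → M}
    {q : E₁ × E₂} {z : B} (hA : Fib.AC E pr σ q z) (ε : ℝ) :
    ContDiffAt ℝ ∞ (fun y => bf (Fib.gσ g σ y) (VV (Fib.gam g σ y)) ε) q := by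
  have hS : ContDiffAt ℝ ∞ (Fib.gσ g σ) q :=
    clm_smooth fun a => clm_smooth fun b => Fib.G2.gσ_smooth g hA.para a b
  have hΓ := gam_smooth g hA
  have hV : ∀ a : E₁ × E₂, ContDiffAt ℝ ∞ (fun y => VV (Fib.gam g σ y) a) q := by
    intro a
    have h1 : (fun y => VV (Fib.gam g σ y) a) = fun y => ((0 : E₁), a.2 - Fib.gam g σ y a.1) := rfl
    rw [h1]
    exact contDiffAt_const.prodMk (contDiffAt_const.sub (hΓ.clm_apply contDiffAt_const))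
  refine clm_smooth fun a => clm_smooth fun b => ?_
  have h2 : (fun y => bf (Fib.gσ g σ y) (VV (Fib.gam g σ y)) ε a b) = fun y =>
      Fib.gσ g σ y a b + (ε ^ 2 - 1) *
        Fib.gσ g σ y (VV (Fib.gam g σ y) a) (VV (Fib.gam g σ y) b) := rfl
  rw [h2]
  exact ((hS.clm_apply contDiffAt_const).clm_apply contDiffAt_const).add
    (contDiffAt_const.mul ((hS.clm_apply (hV a)).clm_apply (hV b)))

/-- The local inverse of a parametrization. -/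
theorem exists_inv {σ : E₂ → M} {q : E₂} (hσ : Para E σ q) :
    ∃ G : E → E₂, ContDiffAt ℝ ∞ G (extChartAt 𝓘(ℝ, E) (σ q) (σ q)) ∧
      G (extChartAt 𝓘(ℝ, E) (σ q) (σ q)) = q ∧
      ∀ᶠ y in 𝓝 (extChartAt 𝓘(ℝ, E) (σ q) (σ q)), σ (G y) = (extChartAt 𝓘(ℝ, E) (σ q)).symm y := by
  have ht : Circ.I2.tau E σ q q ∈ (extChartAt 𝓘(ℝ, E) (σ q)).target :=
    mem_extChartAt_target (σ q)
  have key : ∀ (D : E₂ →L[ℝ] E) (S : E →L[ℝ] E) (T : E₂ →L[ℝ] E), (∀ v, D v = S (T v)) →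
      Function.Injective S → Function.Bijective D → Function.Bijective T := by
    intro D S T h1 h2 hb
    refine ⟨fun v w hvw => hb.1 ?_, fun w => ?_⟩
    · rw [h1, h1, hvw]
    · obtain ⟨v, hv⟩ := hb.2 (S w)
      refine ⟨v, h2 ?_⟩
      rw [h1] at hv
      exact hv
  have hb : Function.Bijective (fderiv ℝ (Circ.I2.tau E σ q) q) :=
    key _ _ _ (Circ.I2.deriv_eq hσ).self_of_nhds (symm_injective 𝓘(ℝ, E) (σ q) ht) hσ.bij
  have : CompleteSpace E₂ := FiniteDimensional.complete ℝ E₂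
  have hs := Circ.I2.tau_smooth hσ
  have hs1 : DifferentiableAt ℝ (Circ.I2.tau E σ q) q := hs.differentiableAt (by simp)
  let e : E₂ ≃L[ℝ] E := (LinearEquiv.ofBijective
    (fderiv ℝ (Circ.I2.tau E σ q) q : E₂ →ₗ[ℝ] E) hb).toContinuousLinearEquiv
  have he : (e : E₂ →L[ℝ] E) = fderiv ℝ (Circ.I2.tau E σ q) q := by
    ext v
    rfl
  have hd : HasFDerivAt (Circ.I2.tau E σ q) (e : E₂ →L[ℝ] E) q := by
    rw [he]
    exact hs1.hasFDerivAt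
  have hn : (∞ : WithTop ℕ∞) ≠ 0 := by simp
  have h1 : ContDiffAt ℝ ∞ (hs.localInverse hd hn) (Circ.I2.tau E σ q q) :=
    hs.to_localInverse hd hn
  have h2 : hs.localInverse hd hn (Circ.I2.tau E σ q q) = q :=
    hs.localInverse_apply_image hd hn
  have h3 : ∀ᶠ z in 𝓝 (Circ.I2.tau E σ q q), Circ.I2.tau E σ q (hs.localInverse hd hn z) = z :=
    (hs.hasStrictFDerivAt' hd hn).eventually_right_inverse
  refine ⟨hs.localInverse hd hn, h1, h2, ?_⟩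
  have h6 : Tendsto (hs.localInverse hd hn) (𝓝 (Circ.I2.tau E σ q q)) (𝓝 q) := by
    have h7 := h1.continuousAt.tendsto
    rwa [h2] at h7
  have h5 : ∀ᶠ y in 𝓝 (Circ.I2.tau E σ q q), σ (hs.localInverse hd hn y) ∈
      (extChartAt 𝓘(ℝ, E) (σ q)).source := h6.eventually (Circ.I2.near hσ)
  have h8 : ∀ᶠ y in 𝓝 (Circ.I2.tau E σ q q), σ (hs.localInverse hd hn y) =
      (extChartAt 𝓘(ℝ, E) (σ q)).symm y := by
    filter_upwards [h3, h5] with y h9 h10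
    rw [← (extChartAt 𝓘(ℝ, E) (σ q)).left_inv h10]
    exact congrArg (extChartAt 𝓘(ℝ, E) (σ q)).symm h9
  exact h8

theorem bf_chart (g : Met E M) {pr : M → B} (hpr : Submersion E E₁ pr) (ε : ℝ) (z : M) (v w : E) :
    ContDiffAt ℝ ∞ (fun y : E => bf (gi g ((extChartAt 𝓘(ℝ, E) z).symm y))
      (vp E₁ g pr ((extChartAt 𝓘(ℝ, E) z).symm y)) ε
      (dm E E (extChartAt 𝓘(ℝ, E) z).symm y v) (dm E E (extChartAt 𝓘(ℝ, E) z).symm y w))
      (extChartAt 𝓘(ℝ, E) z z) := by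
  have hle : finrank ℝ E₁ ≤ finrank ℝ E := by
    have h1 : Function.Surjective (dm E E₁ pr z) := hpr.2 z
    exact LinearMap.finrank_le_finrank_of_surjective (f := (dm E E₁ pr z : E →ₗ[ℝ] E₁)) h1
  have hd : finrank ℝ E = finrank ℝ E₁ +
      finrank ℝ (EuclideanSpace ℝ (Fin (finrank ℝ E - finrank ℝ E₁))) := by
    rw [finrank_euclideanSpace_fin]
    omega
  obtain ⟨σ, q, rfl, hA⟩ := Fib.exists_AC hd hpr z
  obtain ⟨G, hG, hGq, hGr⟩ := exists_inv hA.para.self_of_nhds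
  have hT := bf_smooth g hA ε
  have hGt : Tendsto G (𝓝 (extChartAt 𝓘(ℝ, E) (σ q) (σ q))) (𝓝 q) := by
    have h7 := hG.continuousAt.tendsto
    rwa [hGq] at h7
  have hGd : ContDiffAt ℝ ∞ (fderiv ℝ G) (extChartAt 𝓘(ℝ, E) (σ q) (σ q)) :=
    hG.fderiv_right (by simp)
  have hmain : ContDiffAt ℝ ∞ (fun y => bf (Fib.gσ g σ (G y)) (VV (Fib.gam g σ (G y))) ε
      (fderiv ℝ G y v) (fderiv ℝ G y w)) (extChartAt 𝓘(ℝ, E) (σ q) (σ q)) := by
    have h1 : ContDiffAt ℝ ∞ (fun y => bf (Fib.gσ g σ (G y)) (VV (Fib.gam g σ (G y))) ε)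
        (extChartAt 𝓘(ℝ, E) (σ q) (σ q)) := by
      refine ContDiffAt.comp (g := fun y => bf (Fib.gσ g σ y) (VV (Fib.gam g σ y)) ε) _ ?_ hG
      rw [hGq]
      exact hT
    exact (h1.clm_apply (hGd.clm_apply contDiffAt_const)).clm_apply
      (hGd.clm_apply contDiffAt_const)
  refine hmain.congr_of_eventuallyEq ?_
  have hGdiff : ∀ᶠ y in 𝓝 (extChartAt 𝓘(ℝ, E) (σ q) (σ q)), DifferentiableAt ℝ G y := by
    have h1 : ContDiffAt ℝ 1 G (extChartAt 𝓘(ℝ, E) (σ q) (σ q)) := hG.of_le (by simp)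
    filter_upwards [h1.eventually (by simp)] with y hy
    exact hy.differentiableAt (by simp)
  filter_upwards [hGr.eventually_nhds, hGt.eventually (bf_AC g hpr hA ε),
    hGt.eventually hA.para, hGdiff] with y hy1 hy2 hy3 hy4
  have h1 : σ (G y) = (extChartAt 𝓘(ℝ, E) (σ q)).symm y := hy1.self_of_nhds
  have h2 : ∀ u : E, dm E E (extChartAt 𝓘(ℝ, E) (σ q)).symm y u =
      dm _ E σ (G y) (fderiv ℝ G y u) := by
    intro u
    have h3 : (extChartAt 𝓘(ℝ, E) (σ q)).symm =ᶠ[𝓝 y] σ ∘ G := by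
      filter_upwards [hy1] with y' hy'
      exact hy'.symm
    have h4 := mfderiv_comp (I := 𝓘(ℝ, E)) (I'' := 𝓘(ℝ, E)) y
      (hy3.smooth.mdifferentiableAt (by simp)) hy4.mdifferentiableAt
    have h5 : dm E E (extChartAt 𝓘(ℝ, E) (σ q)).symm y = dm E E (σ ∘ G) y := h3.mfderiv_eq
    rw [h5]
    have h6 : dm E E (σ ∘ G) y = (dm _ E σ (G y)).comp (fderiv ℝ G y) := by
      unfold dm
      rw [h4, mfderiv_eq_fderiv]
      rfl
    rw [h6]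
    rfl
  rw [h2, h2, ← h1]
  exact hy2 _ _

end IsFibAux

open IsFibAux in
theorem exists_biconf {pr : M → B} (hpr : Submersion E E₁ pr) (g : Met E M) {ε : ℝ}
    (hε : 0 < ε) : ∃ g' : Met E M, Biconformal E₁ g g' pr (fun _ => 1) (fun _ => ε) := by
  suffices hmet : ∃ g' : Met E M, ∀ (p : M) (u v : TangentSpace 𝓘(ℝ, E) p), g'.inner p u v =
      bf (E := E) (gi g p) (vp E₁ g pr p) ε u v by
    obtain ⟨g', hg'⟩ := hmet
    refine ⟨g', fun p u v w z hu hv hw hz => ?_⟩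
    rw [hg']
    exact bf_bic g pr p ε hu hv hw hz
  refine exists_met (E := E) (M := M) (fun p => bf (E := E) (gi g p) (vp E₁ g pr p) ε) ?_ ?_ ?_
  · intro p u v
    exact bf_symm g pr p ε u v
  · intro p u hu
    exact bf_pos g pr p hε hu
  · intro z v w
    exact bf_chart g hpr ε z v w

end Pool.Agent.Lib.MP_df705a_gt.Coll
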